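import Pool.Agent.Q67.BW.Core

/-!
# A continuous Bowen function on the full shift which is not a Walters function modulo weak
coboundaries

The alphabet `A` is any finite set with at least two letters, `X = A^ℕ` is the space of sequences
with the product topology and the metric `d (x, y) = 2 ^ (- min {i | x i ≠ y i})`.
-/

noncomputable section

namespace Pool.Agent.Results.MP_3e6e51_an.BowenNotWalters

open Finset Filter Topology Pool.Agent.Q67.BW

variable {A : Type*}

/-- the left shift -/
def shift (x : ℕ → A) : ℕ → A := fun n => x (n + 1)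

/-- the metric `2 ^ (- min {i | x i ≠ y i})` -/
def d (x y : ℕ → A) : ℝ :=
  open Classical in if x = y then 0 else (1 / 2 : ℝ) ^ (sInf {i : ℕ | x i ≠ y i})

/-- the Birkhoff sum `S_n f (x) = ∑_{k < n} f (σ^k x)` -/
def S (f : (ℕ → A) → ℝ) (n : ℕ) (x : ℕ → A) : ℝ := ∑ k ∈ range n, f (shift^[k] x)

/-- Walters functions -/
def Walters (f : (ℕ → A) → ℝ) : Prop :=
  ∀ κ > 0, ∃ ε > 0, ∀ n ≥ 1, ∀ x y : ℕ → A,
    (∀ k < n, d (shift^[k] x) (shift^[k] y) < ε) → |S f n x - S f n y| < κ

/-- Bowen functions -/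
def Bowen (f : (ℕ → A) → ℝ) : Prop :=
  ∃ M > 0, ∃ ε > 0, ∀ n ≥ 1, ∀ x y : ℕ → A,
    (∀ k < n, d (shift^[k] x) (shift^[k] y) < ε) → |S f n x - S f n y| ≤ M

section
variable [TopologicalSpace A]

lemma shift_cont : Continuous (shift : (ℕ → A) → (ℕ → A)) := by
  unfold shift; fun_prop

/-- the shift as a continuous map -/
def shiftC (A : Type*) [TopologicalSpace A] : C(ℕ → A, ℕ → A) := ⟨shift, shift_cont⟩

/-- weak coboundaries: the closure, in the sup norm, of the functions `q ∘ σ - q` -/
def Wcob (A : Type*) [TopologicalSpace A] : Set C(ℕ → A, ℝ) :=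
  closure (Set.range fun q : C(ℕ → A, ℝ) => q.comp (shiftC A) - q)

end

lemma shift_iter (k : ℕ) (x : ℕ → A) : shift^[k] x = sh k x := by
  induction k with
  | zero => rfl
  | succ k ih =>
    rw [Function.iterate_succ_apply', ih]
    funext n
    show x (n + 1 + k) = x (n + (k + 1))
    rw [add_right_comm, add_assoc]

lemma S_eq (f : (ℕ → A) → ℝ) (n : ℕ) (x : ℕ → A) : S f n x = ∑ k ∈ range n, f (sh k x) := by
  unfold S
  exact Finset.sum_congr rfl fun k _ => by rw [shift_iter]

lemma d_lt_of_agree {x y : ℕ → A} {N : ℕ} (h : ∀ i < N, x i = y i) : d x y ≤ (1/2)^N := by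
  classical
  unfold d
  split_ifs with hxy
  · positivity
  · have hne : {i : ℕ | x i ≠ y i}.Nonempty := by
      by_contra hcon
      rw [Set.not_nonempty_iff_eq_empty, Set.eq_empty_iff_forall_notMem] at hcon
      apply hxy
      funext i
      by_contra hi
      exact hcon i hi
    apply pow_le_pow_of_le_one (by norm_num) (by norm_num)
    by_contra hcon
    push Not at hcon
    exact Nat.sInf_mem hne (h _ hcon)

lemma zero_eq_of_d {x y : ℕ → A} (h : d x y < 1) : x 0 = y 0 := by
  classical
  by_contra hne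
  have h1 : x ≠ y := fun e => hne (by rw [e])
  have h2 : sInf {i : ℕ | x i ≠ y i} = 0 := Nat.sInf_eq_zero.2 (Or.inl hne)
  unfold d at h
  rw [if_neg h1, h2, pow_zero] at h
  exact lt_irrefl _ h

variable [TopologicalSpace A] [DiscreteTopology A] {o l : A}

/-- the Bowen function -/
def phi (hol : o ≠ l) : C(ℕ → A, ℝ) := ⟨fn o l, fn_cont hol⟩

lemma phi_bowen (hol : o ≠ l) : Bowen (phi hol) := by
  refine ⟨2, by norm_num, 1, by norm_num, fun n _ x y hxy => ?_⟩
  have h : ∀ i < n, x i = y i := by
    intro i hi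
    have := zero_eq_of_d (hxy i hi)
    rw [shift_iter, shift_iter] at this
    have e : x (0 + i) = y (0 + i) := this
    rwa [zero_add] at e
  rw [S_eq, S_eq]
  have h1 := bowen hol h
  have h2 := bowen hol (fun i hi => (h i hi).symm)
  rw [abs_sub_le_iff]
  constructor
  · show SS o l n x - SS o l n y ≤ 2
    linarith
  · show SS o l n y - SS o l n x ≤ 2
    linarith

/-- weak coboundaries have zero sums over periodic orbits -/
lemma wcob_per {g : C(ℕ → A, ℝ)} (hg : g ∈ Wcob A) {n : ℕ} {x : ℕ → A} (hx : sh n x = x) :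
    ∑ k ∈ range n, g (sh k x) = 0 := by
  have hcl : IsClosed {g : C(ℕ → A, ℝ) | ∑ k ∈ range n, g (sh k x) = 0} := by
    apply isClosed_eq _ continuous_const
    exact continuous_finsetSum _ fun k _ => continuous_eval_const _
  have hsub : Set.range (fun q : C(ℕ → A, ℝ) => q.comp (shiftC A) - q) ⊆
      {g : C(ℕ → A, ℝ) | ∑ k ∈ range n, g (sh k x) = 0} := by
    rintro _ ⟨q, rfl⟩
    show ∑ k ∈ range n, (q (shift (sh k x)) - q (sh k x)) = 0
    have e : ∀ k, shift (sh k x) = sh (k + 1) x := by
      intro k; rw [← shift_iter, ← shift_iter, Function.iterate_succ_apply']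
    simp only [e]
    rw [Finset.sum_range_sub (fun k => q (sh k x)), hx]
    show q x - q x = 0
    ring
  exact closure_minimal hsub hcl hg

omit [TopologicalSpace A] [DiscreteTopology A] in
lemma walters_agree {h : (ℕ → A) → ℝ} {κ ε : ℝ} (hW : ∀ n ≥ 1, ∀ x y : ℕ → A,
    (∀ k < n, d (shift^[k] x) (shift^[k] y) < ε) → |S h n x - S h n y| < κ) {N : ℕ}
    (hN : (1/2 : ℝ)^N < ε) {n : ℕ} (hn : 1 ≤ n) {x y : ℕ → A} (hxy : ∀ i < n + N, x i = y i) :
    |∑ k ∈ range n, h (sh k x) - ∑ k ∈ range n, h (sh k y)| < κ := by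
  rw [← S_eq, ← S_eq]
  apply hW n hn x y
  intro k hk
  refine (d_lt_of_agree (N := N) fun i hi => ?_).trans_lt hN
  rw [shift_iter, shift_iter]
  exact hxy (i + k) (by omega)

/-- **Main theorem.** On the full shift over any finite alphabet with at least two letters there
is a continuous Bowen function `φ` such that `φ - h` is not a weak coboundary for any continuous
Walters function `h`. -/
theorem result (A : Type*) [Fintype A] [Nontrivial A] [TopologicalSpace A] [DiscreteTopology A] :
    ∃ φ : C(ℕ → A, ℝ), Bowen φ ∧ ∀ h : C(ℕ → A, ℝ), Walters h → φ - h ∉ Wcob A := by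
  obtain ⟨o, l, hol⟩ := exists_pair_ne A
  refine ⟨phi hol, phi_bowen hol, fun h hW hmem => ?_⟩
  obtain ⟨ε, hε, hW⟩ := hW (1/8) (by norm_num)
  obtain ⟨N, hN⟩ := exists_pow_lt_of_lt_one hε (show (1/2 : ℝ) < 1 by norm_num)
  set k : ℕ := N + 2 with hk
  have hk2 : 2 ≤ k := by omega
  -- equality of the sums over periodic orbits
  have hper : ∀ (n : ℕ) (x : ℕ → A), sh n x = x →
      SS o l n x = ∑ i ∈ range n, h (sh i x) := by
    intro n x hx
    have := wcob_per hmem hx
    have e : ∑ i ∈ range n, (phi hol - h) (sh i x) =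
        SS o l n x - ∑ i ∈ range n, h (sh i x) := by
      unfold SS
      rw [← Finset.sum_sub_distrib]
      rfl
    rw [e] at this
    linarith
  have ha := hper _ _ (xa_per o l k)
  have hb := hper _ _ (xb_per o l k)
  have hc := hper _ _ (xc_per o l k)
  have h1 := walters_agree hW hN (n := 2 * k) (by omega) (x := xa o l k) (y := xc o l k)
    (fun i hi => agree_ac o l hk2 i (by omega))
  have h2 := walters_agree hW hN (n := k + 3) (by omega) (x := xb o l k) (y := sh (2 * k) (xc o l k))
    (fun i hi => agree_bc o l hk2 i (by omega))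
  have h3 : ∑ i ∈ range (3 * k + 3), h (sh i (xc o l k)) =
      ∑ i ∈ range (2 * k), h (sh i (xc o l k)) +
        ∑ i ∈ range (k + 3), h (sh i (sh (2 * k) (xc o l k))) := by
    rw [show 3 * k + 3 = 2 * k + (k + 3) by ring, Finset.sum_range_add]
    congr 1
    refine Finset.sum_congr rfl fun i _ => ?_
    rw [sh_sh, add_comm]
  have h4 := SS_xa hol hk2
  have h5 := SS_nonneg (o := o) (l := l) (k + 3) (xb o l k)
  have h6 := SS_xc hol hk2
  rw [abs_lt] at h1 h2
  linarith [h1.1, h1.2, h2.1, h2.2]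

end Pool.Agent.Results.MP_3e6e51_an.BowenNotWalters
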